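import Mathlib

/-!
# The parity of the 2-rank of sandpile groups of Cayley graphs of `𝔽₂^r`
-/

set_option autoImplicit false

open Finset TensorProduct

namespace Pool.Agent.Results.MP_8ee885_co.ParityOfTwoRank

/-- The group `𝔽₂^r`. -/
abbrev V (r : ℕ) : Type := Fin r → ZMod 2

variable {r n : ℕ}

/-- The multiplicity `μ_u` of `u` in the list `v`. -/
def mult (v : Fin n → V r) (u : V r) : ℕ := (univ.filter fun i => v i = u).card

/-- The standing assumptions: `r ≥ 1`, the `v i` are nonzero and span `𝔽₂^r`, and the gcd of the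
multiplicities is `1`. -/
structure Valid (v : Fin n → V r) : Prop where
  pos : 1 ≤ r
  ne_zero : ∀ i, v i ≠ 0
  span : Submodule.span (ZMod 2) (Set.range v) = ⊤
  gcd : univ.gcd (mult v) = 1

/-- The Laplacian of the Cayley multigraph: `L w w = n` and `L w w' = - #{i | w + v i = w'}` for
`w ≠ w'`. -/
def laplacian (v : Fin n → V r) : Matrix (V r) (V r) ℤ := fun w w' =>
  if w = w' then (n : ℤ) else -((univ.filter fun i => w + v i = w').card : ℤ)

/-- The cokernel of the Laplacian. -/
abbrev Coker (v : Fin n → V r) : Type :=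
  (V r → ℤ) ⧸ LinearMap.range (laplacian v).mulVecLin

/-- The sandpile group: the torsion subgroup of the cokernel of the Laplacian. -/
abbrev sandpile (v : Fin n → V r) : Submodule ℤ (Coker v) := Submodule.torsion ℤ (Coker v)

/-- The `2`-rank `dim K ⊗ ℤ/2ℤ` of an abelian group `K`; for a finite abelian group this is the
number of even invariant factors. -/
noncomputable def twoRank (K : Type) [AddCommGroup K] : ℕ :=
  Module.finrank (ZMod 2) (ZMod 2 ⊗[ℤ] K)

/-- The number of even invariant factors `d(M) = dim K(G) ⊗ ℤ/2ℤ`. -/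
noncomputable def d (v : Fin n → V r) : ℕ := twoRank (sandpile v)

/-- The eigenvalue `λ_u = n - ∑ (-1)^(u · v i)` of the Laplacian. -/
def eigenvalue (v : Fin n → V r) (u : V r) : ℤ :=
  n - ∑ i, if u ⬝ᵥ v i = 0 then 1 else -1

/-- The 2-adic valuations of `λ_u`, `u ≠ 0`, are all equal. -/
def AllEqual (v : Fin n → V r) : Prop :=
  ∀ u u' : V r, u ≠ 0 → u' ≠ 0 →
    padicValInt 2 (eigenvalue v u) = padicValInt 2 (eigenvalue v u')

/-- All multiplicities `μ_u`, `u ≠ 0`, are odd. -/
def AllOdd (v : Fin n → V r) : Prop := ∀ u : V r, u ≠ 0 → Odd (mult v u)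

/-- The assertion of Q1 for the list `v`. -/
def Q1For (v : Fin n → V r) : Prop :=
  (¬ AllEqual v → Odd (d v)) ∧ (AllEqual v → d v = 2 ^ r - 2)

/-! ### The Laplacian as an operator on functions with values in a ring -/

theorem add_self' (w : V r) : w + w = 0 := funext fun i => CharTwo.add_self_eq_zero (w i)

theorem add_cancel' (w u : V r) : w + u + u = w := by rw [add_assoc, add_self', add_zero]

/-- `(lap f) w = ∑ i, (f w - f (w + v i))`. -/
def lap (R : Type*) [CommRing R] (v : Fin n → V r) : (V r → R) →ₗ[R] (V r → R) where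
  toFun f := fun w => ∑ i, (f w - f (w + v i))
  map_add' f g := by
    funext w
    simp only [Pi.add_apply]
    rw [← sum_add_distrib]
    exact sum_congr rfl fun i _ => by ring
  map_smul' c f := by
    funext w
    simp only [Pi.smul_apply, smul_eq_mul, RingHom.id_apply]
    rw [mul_sum]
    exact sum_congr rfl fun i _ => by ring

theorem lap_apply (R : Type*) [CommRing R] (v : Fin n → V r) (f : V r → R) (w : V r) :
    lap R v f w = ∑ i, (f w - f (w + v i)) := rfl

theorem laplacian_mulVec {v : Fin n → V r} (hv : ∀ i, v i ≠ 0) (f : V r → ℤ) (w : V r) :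
    (laplacian v).mulVec f w = lap ℤ v f w := by
  have h1 : ∀ w', laplacian v w w' = (if w = w' then (n : ℤ) else 0) -
      ∑ i, if w + v i = w' then (1 : ℤ) else 0 := by
    intro w'
    rw [laplacian]
    split_ifs with h
    · subst h
      rw [sum_eq_zero, sub_zero]
      intro i _
      rw [if_neg]
      intro h
      exact hv i (by simpa using h)
    · rw [zero_sub, card_filter]; push_cast; rfl
  rw [Matrix.mulVec, dotProduct, lap_apply, sum_sub_distrib]
  simp only [h1, sub_mul, sum_sub_distrib, sum_mul, ite_mul, zero_mul, one_mul, sum_ite_eq,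
    mem_univ, if_true]
  rw [sum_comm]
  simp

theorem lap_const (R : Type*) [CommRing R] (v : Fin n → V r) (c : R) :
    lap R v (fun _ => c) = 0 := by
  funext w; rw [lap_apply]; simp

theorem sum_lap (R : Type*) [CommRing R] (v : Fin n → V r) (f : V r → R) :
    ∑ w, lap R v f w = 0 := by
  simp only [lap_apply]
  rw [sum_comm]
  refine sum_eq_zero fun i _ => ?_
  rw [sum_sub_distrib, sub_eq_zero]
  exact (Equiv.sum_comp (Equiv.addRight (v i)) f).symm

theorem ker_lap_int {v : Fin n → V r} (hspan : Submodule.span (ZMod 2) (Set.range v) = ⊤)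
    {f : V r → ℤ} (hf : lap ℤ v f = 0) (x y : V r) : f x = f y := by
  obtain ⟨w, -, hw⟩ := exists_max_image univ f univ_nonempty
  have key : ∀ z, f z = f w → ∀ i, f (z + v i) = f w := by
    intro z hz i
    have h1 : ∑ i, (f z - f (z + v i)) = 0 := congrFun hf z
    have h2 := (sum_eq_zero_iff_of_nonneg fun i _ => by
      rw [hz]; exact sub_nonneg.2 (hw _ (mem_univ _))).1 h1 i (mem_univ _)
    rw [← hz]; exact (sub_eq_zero.1 h2).symm
  have h3 : ∀ x : V r, x ∈ Submodule.span (ZMod 2) (Set.range v) →
      ∀ z, f z = f w → f (z + x) = f w := by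
    intro x hx
    induction hx using Submodule.span_induction with
    | mem x hx => obtain ⟨i, rfl⟩ := hx; intro z hz; exact key z hz i
    | zero => intro z hz; rw [add_zero]; exact hz
    | add x y _ _ hx hy => intro z hz; rw [← add_assoc]; exact hy _ (hx _ hz)
    | smul a x _ hx =>
      intro z hz
      have ha : a = 0 ∨ a = 1 := by revert a; decide
      rcases ha with rfl | rfl
      · rw [zero_smul, add_zero]; exact hz
      · rw [one_smul]; exact hx z hz
  have h4 : ∀ x, f x = f w := by
    intro x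
    have := h3 (w + x) (by rw [hspan]; trivial) w rfl
    rwa [← add_assoc, add_self', zero_add] at this
  rw [h4 x, h4 y]


/-! ### The rank of an alternating form -/

section alt

open Module

/-- The rank of an alternating form is even. -/
theorem alt_even {K : Type*} [Field K] (n : ℕ) : ∀ (W : Type) [AddCommGroup W] [Module K W]
    [FiniteDimensional K W] (B : W →ₗ[K] W →ₗ[K] K), (∀ x, B x x = 0) → finrank K W = n →
      Even (finrank K (LinearMap.range B)) := by
  induction n using Nat.strong_induction_on with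
  | _ n ih =>
    intro W _ _ _ B hB hn
    by_cases h0 : B = 0
    · rw [h0, LinearMap.range_zero, finrank_bot]; exact Even.zero
    obtain ⟨v, v', hv⟩ : ∃ v v', B v v' ≠ 0 := by
      by_contra h
      push Not at h
      exact h0 (LinearMap.ext fun v => LinearMap.ext fun v' => h v v')
    have hskew : ∀ x y, B x y = -B y x := by
      intro x y
      have := hB (x + y)
      simp only [map_add, LinearMap.add_apply, hB, zero_add, add_zero] at this
      exact eq_neg_of_add_eq_zero_right this
    let f : W →ₗ[K] K × K := (B.flip v).prod (B.flip v')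
    have hf : ∀ x, f x = (B x v, B x v') := fun x => rfl
    have hfs : Function.Surjective f := by
      rintro ⟨a, b⟩
      refine ⟨(-(a / B v v')) • v' + (b / B v v') • v, ?_⟩
      rw [hf]
      simp only [map_add, map_smul, LinearMap.add_apply, LinearMap.smul_apply, hB, smul_eq_mul,
        mul_zero, add_zero, zero_add, hskew v' v]
      ext <;> simp [hv]
    have hdim : finrank K (LinearMap.ker f) + 2 = n := by
      have h1 := LinearMap.finrank_range_add_finrank_ker f
      rw [LinearMap.range_eq_top.2 hfs, finrank_top, finrank_prod, finrank_self] at h1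
      omega
    let U := LinearMap.ker f
    have hU : ∀ x, x ∈ U ↔ B x v = 0 ∧ B x v' = 0 := by
      intro x; rw [LinearMap.mem_ker, hf, Prod.mk_eq_zero]
    let BU : U →ₗ[K] U →ₗ[K] K := B.domRestrict₁₂ U U
    have h1 := ih (finrank K U) (by change finrank K (LinearMap.ker f) < n; omega) U BU (fun x => hB x) rfl
    have hker : LinearMap.ker B = (LinearMap.ker BU).map U.subtype := by
      ext x
      rw [LinearMap.mem_ker, Submodule.mem_map]
      constructor
      · intro hx
        refine ⟨⟨x, (hU x).2 ⟨by rw [hx]; rfl, by rw [hx]; rfl⟩⟩, ?_, rfl⟩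
        rw [LinearMap.mem_ker]
        refine LinearMap.ext fun y => ?_
        change B x y = 0
        rw [hx]; rfl
      · rintro ⟨y, hy, rfl⟩
        rw [LinearMap.mem_ker] at hy
        refine LinearMap.ext fun z => ?_
        obtain ⟨h2, h3⟩ := (hU y).1 y.2
        -- decompose `z`
        let z' : W := z - ((-(B z v / B v v')) • v' + (B z v' / B v v') • v)
        have hz' : z' ∈ U := by
          rw [hU]
          constructor
          · simp only [z', map_sub, map_add, map_smul, LinearMap.sub_apply, LinearMap.add_apply,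
              LinearMap.smul_apply, hB, smul_eq_mul, mul_zero, add_zero, hskew v' v]
            field_simp; ring
          · simp only [z', map_sub, map_add, map_smul, LinearMap.sub_apply, LinearMap.add_apply,
              LinearMap.smul_apply, hB, smul_eq_mul, mul_zero, zero_add]
            field_simp; ring
        have h4 : B y z' = 0 := LinearMap.congr_fun hy ⟨z', hz'⟩
        have h5 : z = z' + ((-(B z v / B v v')) • v' + (B z v' / B v v') • v) := by
          simp only [z']; abel
        rw [Submodule.subtype_apply, h5, map_add, h4, map_add, map_smul, map_smul, h2, h3]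
        simp
    have h2 := LinearMap.finrank_range_add_finrank_ker B
    have h3 := LinearMap.finrank_range_add_finrank_ker BU
    have h4 : finrank K (LinearMap.ker B) = finrank K (LinearMap.ker BU) := by
      rw [hker]
      exact Submodule.finrank_map_subtype_eq _ _
    have h6 : finrank K U = finrank K (LinearMap.ker f) := rfl
    have h5 : finrank K (LinearMap.range B) = 2 + finrank K (LinearMap.range BU) := by omega
    rw [h5]
    exact even_two.add h1

end alt

/-! ### The cokernel and the sandpile group -/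

section coker

variable {v : Fin n → V r}

theorem range_laplacian (hv : ∀ i, v i ≠ 0) :
    LinearMap.range (laplacian v).mulVecLin = LinearMap.range (lap ℤ v) := by
  congr 1
  refine LinearMap.ext fun f => funext fun w => ?_
  rw [Matrix.mulVecLin_apply, laplacian_mulVec hv]

/-- The sum of the coordinates. -/
def aug (R : Type*) [CommRing R] (r : ℕ) : (V r → R) →ₗ[R] R := ∑ w, LinearMap.proj w

theorem aug_apply (R : Type*) [CommRing R] (f : V r → R) : aug R r f = ∑ w, f w := by
  simp [aug]

/-- The degree map on the cokernel. -/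
def deg (hv : ∀ i, v i ≠ 0) : Coker v →ₗ[ℤ] ℤ :=
  Submodule.liftQ _ (aug ℤ r) (by
    rw [range_laplacian hv]
    rintro _ ⟨f, rfl⟩
    rw [LinearMap.mem_ker, aug_apply, sum_lap])

/-- The section of the degree map. -/
def sec (v : Fin n → V r) : ℤ →ₗ[ℤ] Coker v :=
  (Submodule.mkQ _).comp (LinearMap.toSpanSingleton ℤ (V r → ℤ) (Pi.single 0 1))

theorem deg_sec (hv : ∀ i, v i ≠ 0) (m : ℤ) : deg hv (sec v m) = m := by
  change aug ℤ r (m • Pi.single 0 1) = m
  rw [map_smul, aug_apply]
  simp

/-- The cokernel is the product of the kernel of the degree map and `ℤ`. -/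
def splitting (hv : ∀ i, v i ≠ 0) : Coker v ≃ₗ[ℤ] LinearMap.ker (deg hv) × ℤ :=
  LinearEquiv.ofLinearMap
    (LinearMap.prod (LinearMap.codRestrict _ (LinearMap.id - (sec v).comp (deg hv)) fun c => by
      rw [LinearMap.mem_ker, LinearMap.sub_apply, map_sub, LinearMap.comp_apply, deg_sec,
        LinearMap.id_apply, sub_self]) (deg hv))
    (LinearMap.coprod (LinearMap.ker (deg hv)).subtype (sec v))
    (by
      apply LinearMap.ext
      rintro ⟨k, m⟩
      have hk : deg hv (k : Coker v) = 0 := k.2
      refine Prod.ext (Subtype.ext ?_) ?_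
      · change (k : Coker v) + sec v m - sec v (deg hv (k + sec v m)) = k
        rw [map_add, hk, deg_sec, zero_add, add_sub_cancel_right]
      · change deg hv (k + sec v m) = m
        rw [map_add, hk, deg_sec, zero_add])
    (by
      apply LinearMap.ext
      intro c
      change c - sec v (deg hv c) + sec v (deg hv c) = c
      rw [sub_add_cancel])

theorem ker_lap_eq (hspan : Submodule.span (ZMod 2) (Set.range v) = ⊤) :
    LinearMap.ker (lap ℤ v) = Submodule.span ℤ {fun _ => (1 : ℤ)} := by
  ext f
  rw [Submodule.mem_span_singleton, LinearMap.mem_ker]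
  constructor
  · intro hf
    exact ⟨f 0, funext fun w => by
      rw [Pi.smul_apply, smul_eq_mul, mul_one]; exact ker_lap_int hspan hf 0 w⟩
  · rintro ⟨c, rfl⟩
    rw [map_smul, lap_const, smul_zero]

theorem ker_deg_eq (hval : Valid v) : LinearMap.ker (deg hval.ne_zero) = sandpile v := by
  have h1 : Module.finrank ℤ (LinearMap.ker (lap ℤ v)) = 1 := by
    rw [ker_lap_eq hval.span, ← (LinearEquiv.toSpanNonzeroSingleton ℤ (V r → ℤ)
      (fun _ => (1 : ℤ)) (fun h => one_ne_zero (congrFun h 0))).finrank_eq, Module.finrank_self]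
  have h2 : Module.finrank ℤ (LinearMap.range (lap ℤ v)) +
      Module.finrank ℤ (LinearMap.ker (lap ℤ v)) = Module.finrank ℤ (V r → ℤ) := by
    rw [← (lap ℤ v).quotKerEquivRange.finrank_eq]
    exact Submodule.finrank_quotient_add_finrank _
  have h3 : Module.finrank ℤ (Coker v) + Module.finrank ℤ (LinearMap.range (lap ℤ v)) =
      Module.finrank ℤ (V r → ℤ) := by
    rw [← range_laplacian hval.ne_zero]
    exact Submodule.finrank_quotient_add_finrank _
  have h4 : Module.finrank ℤ (Coker v) =
      Module.finrank ℤ (LinearMap.ker (deg hval.ne_zero)) + 1 := by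
    have hs : Function.Surjective (deg hval.ne_zero) := fun m =>
      ⟨sec v m, deg_sec hval.ne_zero m⟩
    have h := Submodule.finrank_quotient_add_finrank (LinearMap.ker (deg hval.ne_zero))
    rw [((deg hval.ne_zero).quotKerEquivOfSurjective hs).finrank_eq, Module.finrank_self] at h
    omega
  have h5 : Module.finrank ℤ (LinearMap.ker (deg hval.ne_zero)) = 0 := by omega
  have h6 := Module.finrank_eq_zero_iff_isTorsion.1 h5
  ext c
  rw [Submodule.mem_torsion_iff]
  constructor
  · intro hc
    obtain ⟨a, ha⟩ := h6 (x := ⟨c, hc⟩)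
    exact ⟨a, congrArg Subtype.val ha⟩
  · rintro ⟨a, ha⟩
    rw [LinearMap.mem_ker]
    have h7 := congrArg (deg hval.ne_zero) ha
    rw [map_zero] at h7
    have h8 : (a : ℤ) * deg hval.ne_zero c = 0 := by
      rw [← smul_eq_mul, ← map_smul]; exact h7
    exact (mul_eq_zero.1 h8).resolve_left (nonZeroDivisors.coe_ne_zero a)

/-- `2 ^ d(M) = # Hom(K, 𝔽₂)`. -/
theorem card_hom (K : Type) [AddCommGroup K] [Module.Finite ℤ K] :
    Nat.card (K →ₗ[ℤ] ZMod 2) = 2 ^ Module.finrank (ZMod 2) (ZMod 2 ⊗[ℤ] K) := by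
  rw [Nat.card_congr (LinearMap.liftBaseChangeEquiv (R := ℤ) (M := K) (N := ZMod 2)
    (ZMod 2)).toEquiv]
  have h1 : Module.finrank (ZMod 2) (ZMod 2 ⊗[ℤ] K →ₗ[ZMod 2] ZMod 2) =
      Module.finrank (ZMod 2) (ZMod 2 ⊗[ℤ] K) := Subspace.dual_finrank_eq
  have : Finite (ZMod 2 ⊗[ℤ] K →ₗ[ZMod 2] ZMod 2) := Module.finite_of_finite (ZMod 2)
  rw [Module.natCard_eq_pow_finrank (K := ZMod 2), Nat.card_zmod, h1]

theorem lap_adjoint (R : Type*) [CommRing R] (v : Fin n → V r) (f g : V r → R) :
    ∑ w, lap R v f w * g w = ∑ w, f w * lap R v g w := by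
  simp only [lap_apply, sum_mul, mul_sum]
  rw [sum_comm, sum_comm (s := univ) (t := univ) (f := fun w i => f w * (g w - g (w + v i)))]
  refine sum_congr rfl fun i _ => ?_
  simp only [sub_mul, mul_sub, sum_sub_distrib]
  congr 1
  rw [← Equiv.sum_comp (Equiv.addRight (v i))]
  refine sum_congr rfl fun w _ => ?_
  simp only [Equiv.coe_addRight, add_cancel']

theorem lap_cast (v : Fin n → V r) (f : V r → ℤ) (w : V r) :
    ((lap ℤ v f w : ℤ) : ZMod 2) = lap (ZMod 2) v (fun x => (f x : ZMod 2)) w := by
  simp [lap_apply]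

theorem lap_single (v : Fin n → V r) (w : V r) :
    lap ℤ v (Pi.single w 1) = ∑ i, (Pi.single w 1 - Pi.single (w + v i) 1) := by
  funext x
  rw [lap_apply, Finset.sum_apply]
  refine sum_congr rfl fun i _ => ?_
  rw [Pi.sub_apply]
  congr 1
  rw [Pi.single_apply, Pi.single_apply]
  have : x + v i = w ↔ x = w + v i := by
    constructor
    · intro h; rw [← h, add_cancel']
    · intro h; rw [h, add_cancel']
  simp only [this]

/-- The homomorphism `f ↦ ∑ f w * g w`. -/
def pairing (g : V r → ZMod 2) : (V r → ℤ) →ₗ[ℤ] ZMod 2 :=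
  (AddMonoidHom.mk' (fun f : V r → ℤ => ∑ w, (f w : ZMod 2) * g w) fun f f' => by
    rw [← sum_add_distrib]
    refine sum_congr rfl fun w _ => ?_
    rw [Pi.add_apply]; push_cast; ring).toIntLinearMap

theorem pairing_apply (g : V r → ZMod 2) (f : V r → ℤ) :
    pairing g f = ∑ w, (f w : ZMod 2) * g w := rfl

/-- Homomorphisms from the cokernel to `𝔽₂` are the functions killed by `lap`. -/
def homEquiv (hv : ∀ i, v i ≠ 0) :
    (Coker v →ₗ[ℤ] ZMod 2) ≃ LinearMap.ker (lap (ZMod 2) v) where
  toFun φ := ⟨fun w => φ (Submodule.mkQ _ (Pi.single w 1)), by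
    rw [LinearMap.mem_ker]
    funext w
    have h1 : Submodule.mkQ (LinearMap.range (laplacian v).mulVecLin)
        (lap ℤ v (Pi.single w 1)) = 0 := by
      rw [Submodule.mkQ_apply, Submodule.Quotient.mk_eq_zero, range_laplacian hv]
      exact ⟨_, rfl⟩
    have h2 := congrArg φ h1
    rw [map_zero, lap_single, map_sum, map_sum] at h2
    rw [lap_apply, Pi.zero_apply, ← h2]
    exact sum_congr rfl fun i _ => by rw [map_sub, map_sub]⟩
  invFun g := Submodule.liftQ _ (pairing g) (by
    rw [range_laplacian hv]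
    rintro _ ⟨f, rfl⟩
    rw [LinearMap.mem_ker, pairing_apply]
    simp only [lap_cast]
    rw [lap_adjoint, LinearMap.mem_ker.1 g.2]
    simp)
  left_inv φ := by
    apply Submodule.linearMap_qext
    apply (Pi.basisFun ℤ (V r)).ext
    intro w
    rw [Pi.basisFun_apply]
    change pairing _ (Pi.single w 1) = _
    rw [pairing_apply]
    simp [Pi.single_apply]
  right_inv g := by
    apply Subtype.ext
    funext w
    change pairing _ (Pi.single w 1) = _
    rw [pairing_apply]
    simp [Pi.single_apply]

theorem card_hom_coker (hv : ∀ i, v i ≠ 0) :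
    Nat.card (Coker v →ₗ[ℤ] ZMod 2) =
      2 ^ Module.finrank (ZMod 2) (LinearMap.ker (lap (ZMod 2) v)) := by
  rw [Nat.card_congr (homEquiv hv), Module.natCard_eq_pow_finrank (K := ZMod 2), Nat.card_zmod]

theorem d_add_one (hval : Valid v) :
    d v + 1 = Module.finrank (ZMod 2) (LinearMap.ker (lap (ZMod 2) v)) := by
  have h1 := card_hom_coker hval.ne_zero
  have h2 := card_hom (Coker v)
  have h3 : Module.finrank (ZMod 2) (ZMod 2 ⊗[ℤ] Coker v) = d v + 1 := by
    have e : Coker v ≃ₗ[ℤ] sandpile v × ℤ := by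
      rw [← ker_deg_eq hval]; exact splitting hval.ne_zero
    rw [(LinearEquiv.baseChange ℤ (ZMod 2) _ _ e).finrank_eq,
      (TensorProduct.prodRight ℤ (ZMod 2) (ZMod 2) (sandpile v) ℤ).finrank_eq,
      Module.finrank_prod, (TensorProduct.AlgebraTensorModule.rid ℤ (ZMod 2) (ZMod 2)).finrank_eq,
      Module.finrank_self]
    rfl
  rw [← h3]
  exact Nat.pow_right_injective le_rfl (h2.symm.trans h1)

end coker

/-! ### The kernel over `𝔽₂` -/

section parity

variable {v : Fin n → V r}

theorem sq_zmod (a : ZMod 2) : a * a = a := by revert a; decide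

theorem sub_zmod (a b : ZMod 2) : a - b = a + b := by revert a b; decide

/-- `∑ w, f w * f (w + u) = 0` for `u ≠ 0`. -/
theorem sum_pair {u : V r} (hu : u ≠ 0) (f : V r → ZMod 2) : ∑ w, f w * f (w + u) = 0 := by
  refine sum_involution (fun w _ => w + u) ?_ ?_ (fun _ _ => mem_univ _) ?_
  · intro w _
    rw [add_cancel', mul_comm (f (w + u)), CharTwo.add_self_eq_zero]
  · intro w _ _ h
    exact hu (by simpa using h)
  · intro w _
    exact add_cancel' w u

theorem sum_mul_lap (hv : ∀ i, v i ≠ 0) (f : V r → ZMod 2) :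
    ∑ w, f w * lap (ZMod 2) v f w = n * aug (ZMod 2) r f := by
  simp only [lap_apply, mul_sum, mul_sub]
  rw [sum_comm]
  simp only [sum_sub_distrib, sum_pair (hv _), sq_zmod, sub_zero]
  rw [sum_const, card_univ, Fintype.card_fin, nsmul_eq_mul, aug_apply]

/-- The alternating form `(f, g) ↦ ∑ f w * (lap g) w + n * aug f * aug g`. -/
noncomputable def form (v : Fin n → V r) : (V r → ZMod 2) →ₗ[ZMod 2] (V r → ZMod 2) →ₗ[ZMod 2] ZMod 2 :=
  LinearMap.mk₂ (ZMod 2)
    (fun f g => ∑ w, f w * lap (ZMod 2) v g w + n * (aug (ZMod 2) r f * aug (ZMod 2) r g))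
    (fun f f' g => by
      simp only [Pi.add_apply, add_mul, sum_add_distrib, map_add]; ring)
    (fun c f g => by
      simp only [Pi.smul_apply, smul_eq_mul, map_smul, mul_assoc, ← mul_sum]; ring)
    (fun f g g' => by
      simp only [Pi.add_apply, mul_add, sum_add_distrib, map_add]; ring)
    (fun c f g => by
      simp only [Pi.smul_apply, smul_eq_mul, map_smul, mul_left_comm _ c, ← mul_sum]; ring)

theorem form_apply (f g : V r → ZMod 2) : form v f g =
    ∑ w, f w * lap (ZMod 2) v g w + n * (aug (ZMod 2) r f * aug (ZMod 2) r g) := rfl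

theorem form_alt (hv : ∀ i, v i ≠ 0) (f : V r → ZMod 2) : form v f f = 0 := by
  rw [form_apply, sum_mul_lap hv, sq_zmod, CharTwo.add_self_eq_zero]

theorem form_symm (f g : V r → ZMod 2) : form v f g = form v g f := by
  rw [form_apply, form_apply, ← lap_adjoint, mul_comm (aug (ZMod 2) r f)]
  congr 1
  exact sum_congr rfl fun w _ => mul_comm _ _

/-- The radical of the form. -/
theorem mem_ker_form (g : V r → ZMod 2) :
    g ∈ LinearMap.ker (form v) ↔ ∀ w, lap (ZMod 2) v g w = n * aug (ZMod 2) r g := by
  rw [LinearMap.mem_ker]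
  have h1 : ∀ w, form v g (Pi.single w 1) = lap (ZMod 2) v g w + n * aug (ZMod 2) r g := by
    intro w
    rw [form_symm, form_apply, aug_apply (ZMod 2) (Pi.single w 1)]
    simp [Pi.single_apply]
  constructor
  · intro h w
    have h2 := h1 w
    rw [h, LinearMap.zero_apply, ← sub_zmod] at h2
    exact (sub_eq_zero.1 h2.symm)
  · intro h
    apply LinearMap.pi_ext'
    intro w
    apply LinearMap.ext_ring
    change form v g (Pi.single w 1) = 0
    rw [h1, h w, CharTwo.add_self_eq_zero]

/-- The convolution `(f * g) w = ∑ x, f x * g (w + x)`. -/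
def conv (f g : V r → ZMod 2) : V r → ZMod 2 := fun w => ∑ x, f x * g (w + x)

theorem lap_conv (f g : V r → ZMod 2) :
    lap (ZMod 2) v (conv f g) = conv (lap (ZMod 2) v f) g := by
  funext w
  simp only [conv, lap_apply, sum_mul]
  rw [sum_comm]
  refine sum_congr rfl fun i _ => ?_
  simp only [sub_mul, sum_sub_distrib]
  congr 1
  rw [← Equiv.sum_comp (Equiv.addRight (v i))]
  refine sum_congr rfl fun x _ => ?_
  simp only [Equiv.coe_addRight]
  rw [show w + v i + (x + v i) = w + x + (v i + v i) by abel, add_self', add_zero]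

theorem conv_self (f : V r → ZMod 2) : conv f f = Pi.single 0 (aug (ZMod 2) r f) := by
  funext w
  by_cases hw : w = 0
  · subst hw
    rw [Pi.single_eq_same, aug_apply]
    simp only [conv, zero_add, sq_zmod]
  · rw [Pi.single_eq_of_ne hw]
    have := sum_pair hw f
    simp only [conv]
    rw [← this]
    exact sum_congr rfl fun x _ => by rw [add_comm w x]

theorem conv_const (g : V r → ZMod 2) (c : ZMod 2) :
    conv (fun _ => c) g = fun _ => c * aug (ZMod 2) r g := by
  funext w
  simp only [conv]
  rw [← mul_sum, aug_apply]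
  congr 1
  exact Equiv.sum_comp (Equiv.addLeft w) g

theorem lap_delta (hv : ∀ i, v i ≠ 0) (w : V r) :
    lap (ZMod 2) v (Pi.single 0 1) w = if w = 0 then (n : ZMod 2) else mult v w := by
  rw [lap_apply]
  have h1 : ∀ i, w + v i = 0 ↔ v i = w := by
    intro i
    constructor
    · intro h
      have := add_cancel' w (v i)
      rw [h, zero_add] at this; exact this
    · intro h; rw [h, add_self']
  simp only [Pi.single_apply, h1, sum_sub_distrib]
  by_cases hw : w = 0
  · subst hw
    simp [hv]
  · simp only [hw, if_false, sum_const_zero, zero_sub]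
    rw [ZMod.neg_eq_self_mod_two, mult, card_filter]
    push_cast
    rfl

theorem ker_eq (hv : ∀ i, v i ≠ 0) (hodd : ¬ AllOdd v) :
    LinearMap.ker (form v) = LinearMap.ker (lap (ZMod 2) v) := by
  ext f
  rw [mem_ker_form, LinearMap.mem_ker]
  have h01 : ∀ a : ZMod 2, a = 0 ∨ a = 1 := by decide
  rcases h01 (aug (ZMod 2) r f) with he | he
  · rw [he, mul_zero]
    exact ⟨fun h => funext h, fun h w => congrFun h w⟩
  · have hc : conv f f = Pi.single 0 1 := by rw [conv_self, he]
    rcases h01 (n : ZMod 2) with hn | hn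
    · rw [hn, zero_mul]
      exact ⟨fun h => funext h, fun h w => congrFun h w⟩
    · rw [hn, he, mul_one]
      constructor
      · intro h
        exfalso
        apply hodd
        intro u hu
        have h1 : lap (ZMod 2) v f = fun _ => 1 := funext h
        have h2 := lap_conv (v := v) f f
        rw [hc, h1, conv_const, he, mul_one] at h2
        have h3 := congrFun h2 u
        rw [lap_delta hv, if_neg hu] at h3
        rw [← Nat.not_even_iff_odd, ← ZMod.natCast_eq_zero_iff_even, h3]
        exact one_ne_zero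
      · intro h
        exfalso
        have h2 := lap_conv (v := v) f f
        rw [hc, h] at h2
        have h3 := congrFun h2 0
        rw [lap_delta hv, if_pos rfl, hn] at h3
        simp [conv] at h3

theorem odd_d (hval : Valid v) (hodd : ¬ AllOdd v) : Odd (d v) := by
  have h1 := d_add_one hval
  rw [← ker_eq hval.ne_zero hodd] at h1
  have h2 := LinearMap.finrank_range_add_finrank_ker (form v)
  have h3 := alt_even _ _ (form v) (form_alt hval.ne_zero) rfl
  have h4 : Module.finrank (ZMod 2) (V r → ZMod 2) = 2 ^ r := by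
    rw [Module.finrank_fintype_fun_eq_card]; simp [V]
  have h5 : Even (2 ^ r) := (Nat.even_pow).2 ⟨even_two, by have := hval.pos; omega⟩
  rw [h4] at h2
  rw [← h2, Nat.even_add] at h5
  have h6 := h5.1 h3
  rw [← h1] at h6
  rw [← Nat.not_even_iff_odd]
  intro h7
  exact (Nat.even_add_one.1 h6) h7

theorem d_allOdd (hval : Valid v) (hodd : AllOdd v) : d v = 2 ^ r - 2 := by
  have h1 := d_add_one hval
  have h2 : ∀ f w, lap (ZMod 2) v f w = aug (ZMod 2) r f := by
    intro f w
    rw [lap_apply, ← Finset.sum_fiberwise' univ v (fun u => f w - f (w + u))]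
    have h3 : ∀ u, (∑ i ∈ univ with v i = u, (f w - f (w + u))) = f w - f (w + u) := by
      intro u
      rw [sum_const, nsmul_eq_mul]
      by_cases hu : u = 0
      · rw [hu, add_zero, sub_self, mul_zero]
      · have h4 : ((mult v u : ℕ) : ZMod 2) = 1 := by
          exact (ZMod.natCast_eq_one_iff_odd).2 (hodd u hu)
        change ((mult v u : ℕ) : ZMod 2) * _ = _
        rw [h4, one_mul]
    simp only [h3, sum_sub_distrib]
    rw [sum_const, card_univ, nsmul_eq_mul, Fintype.card_fun, ZMod.card, Fintype.card_fin]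
    have h5 : ((2 ^ r : ℕ) : ZMod 2) = 0 := by
      rw [ZMod.natCast_eq_zero_iff_even]
      exact (Nat.even_pow).2 ⟨even_two, by have := hval.pos; omega⟩
    rw [h5, zero_mul, zero_sub, ZMod.neg_eq_self_mod_two, aug_apply]
    exact Equiv.sum_comp (Equiv.addLeft w) f
  have h6 : LinearMap.ker (lap (ZMod 2) v) = LinearMap.ker (aug (ZMod 2) r) := by
    ext f
    rw [LinearMap.mem_ker, LinearMap.mem_ker]
    constructor
    · intro h; rw [← h2 f 0, h]; rfl
    · intro h; funext w; rw [h2, h]; rfl
  have h7 := LinearMap.finrank_range_add_finrank_ker (aug (ZMod 2) r)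
  have h8 : LinearMap.range (aug (ZMod 2) r) = ⊤ := by
    rw [LinearMap.range_eq_top]
    intro c
    refine ⟨Pi.single 0 c, ?_⟩
    rw [aug_apply]; simp
  have h4 : Module.finrank (ZMod 2) (V r → ZMod 2) = 2 ^ r := by
    rw [Module.finrank_fintype_fun_eq_card]; simp [V]
  rw [h8, finrank_top, Module.finrank_self, h4, ← h6, ← h1] at h7
  omega

end parity

/-! ### Equal valuations force odd multiplicities -/

/-- The nontrivial character of `ZMod 2`. -/
def chi (x : ZMod 2) : ℤ := if x = 0 then 1 else -1

theorem chi_add (x y : ZMod 2) : chi (x + y) = chi x * chi y := by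
  revert x y; decide

theorem chi_odd (x : ZMod 2) : Odd (chi x) := by
  revert x; decide

theorem odd_sum {ι : Type*} (s : Finset ι) (f : ι → ℤ) (hf : ∀ i ∈ s, Odd (f i))
    (hs : Odd s.card) : Odd (∑ i ∈ s, f i) := by
  have h1 : Even (∑ i ∈ s, (f i - 1)) := Finset.even_sum _ fun i hi => (hf i hi).sub_odd odd_one
  rw [sum_sub_distrib, sum_const, nsmul_eq_mul, mul_one] at h1
  have h2 : Odd (s.card : ℤ) := by exact_mod_cast hs
  have h3 := h1.add_odd h2
  rwa [sub_add_cancel] at h3

theorem sum_chi {w : V r} (hw : w ≠ 0) : ∑ u : V r, chi (u ⬝ᵥ w) = 0 := by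
  obtain ⟨j, hj⟩ : ∃ j, w j ≠ 0 := by
    by_contra h
    push Not at h
    exact hw (funext h)
  have hj1 : w j = 1 := by
    revert hj
    generalize w j = a
    revert a; decide
  have h1 : ∑ u : V r, chi ((u + Pi.single j 1) ⬝ᵥ w) = ∑ u : V r, chi (u ⬝ᵥ w) :=
    Equiv.sum_comp (Equiv.addRight (Pi.single j 1 : V r)) (fun u => chi (u ⬝ᵥ w))
  have h2 : ∀ u : V r, chi ((u + Pi.single j 1) ⬝ᵥ w) = - chi (u ⬝ᵥ w) := by
    intro u
    rw [add_dotProduct, single_dotProduct, hj1, one_mul, chi_add]
    simp [chi]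
  simp only [h2, sum_neg_distrib] at h1
  linarith

theorem eigenvalue_eq (v : Fin n → V r) (u : V r) :
    eigenvalue v u = n - ∑ i, chi (u ⬝ᵥ v i) := rfl

theorem fourier (v : Fin n → V r) {w : V r} (hw : w ≠ 0) :
    ∑ u : V r, chi (u ⬝ᵥ w) * eigenvalue v u = - (2 ^ r * (mult v w : ℤ)) := by
  have h1 : ∀ u : V r, chi (u ⬝ᵥ w) * eigenvalue v u =
      n * chi (u ⬝ᵥ w) - ∑ i, chi (u ⬝ᵥ (w + v i)) := by
    intro u
    rw [eigenvalue_eq, mul_sub, mul_sum]
    simp only [dotProduct_add, chi_add]
    ring
  have h2 : ∀ i, ∑ u : V r, chi (u ⬝ᵥ (w + v i)) = if v i = w then 2 ^ r else 0 := by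
    intro i
    split_ifs with h
    · rw [h, add_self']
      simp [chi, V]
    · refine sum_chi fun h' => h ?_
      have := add_cancel' w (v i)
      rw [h', zero_add] at this
      exact this
  simp only [h1, sum_sub_distrib]
  rw [← mul_sum, sum_chi hw, mul_zero, zero_sub, sum_comm]
  simp only [h2]
  rw [← sum_filter, sum_const, nsmul_eq_mul, mult, mul_comm]

theorem eigenvalue_zero (v : Fin n → V r) : eigenvalue v 0 = 0 := by
  rw [eigenvalue_eq]
  simp [chi]

theorem eigenvalue_ne {v : Fin n → V r}
    (hspan : Submodule.span (ZMod 2) (Set.range v) = ⊤) {u : V r} (hu : u ≠ 0) :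
    eigenvalue v u ≠ 0 := by
  intro h0
  rw [eigenvalue_eq] at h0
  have h1 : ∑ i, (1 - chi (u ⬝ᵥ v i)) = 0 := by
    rw [sum_sub_distrib]; simpa using h0
  have h2 : ∀ x : ZMod 2, 0 ≤ 1 - chi x := by decide
  have h3 := (sum_eq_zero_iff_of_nonneg fun i _ => h2 (u ⬝ᵥ v i)).1 h1
  have h4 : ∀ i, u ⬝ᵥ v i = 0 := by
    intro i
    have := h3 i (mem_univ i)
    revert this
    generalize u ⬝ᵥ v i = x
    revert x; decide
  have h5 : ∀ x : V r, x ∈ Submodule.span (ZMod 2) (Set.range v) → u ⬝ᵥ x = 0 := by
    intro x hx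
    induction hx using Submodule.span_induction with
    | mem x hx => obtain ⟨i, rfl⟩ := hx; exact h4 i
    | zero => exact dotProduct_zero u
    | add x y _ _ hx hy => rw [dotProduct_add, hx, hy, add_zero]
    | smul a x _ hx => rw [dotProduct_smul, hx, smul_zero]
  apply hu
  funext j
  have := h5 (Pi.single j 1) (by rw [hspan]; trivial)
  simpa using this

theorem allOdd_of_allEqual {v : Fin n → V r} (hval : Valid v) (h : AllEqual v) : AllOdd v := by
  have hr := hval.pos
  -- a nonzero vector
  obtain ⟨u₀, hu₀⟩ : ∃ u : V r, u ≠ 0 := by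
    refine ⟨fun _ => 1, fun h => ?_⟩
    have := congrFun h ⟨0, by omega⟩
    exact one_ne_zero this
  set k := padicValInt 2 (eigenvalue v u₀) with hk
  have h1 : ∀ u : V r, u ≠ 0 → ∃ c : ℤ, Odd c ∧ eigenvalue v u = 2 ^ k * c := by
    intro u hu
    have h2 : padicValInt 2 (eigenvalue v u) = k := h u u₀ hu hu₀
    obtain ⟨c, hc⟩ : (2 : ℤ) ^ k ∣ eigenvalue v u := by
      have := padicValInt_dvd (p := 2) (eigenvalue v u)
      rw [h2] at this
      exact_mod_cast this
    refine ⟨c, ?_, hc⟩
    rw [← Int.not_even_iff_odd]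
    rintro ⟨e, he⟩
    have h3 : (2 : ℤ) ^ (k + 1) ∣ eigenvalue v u := ⟨e, by rw [hc, he]; ring⟩
    have h4 := (padicValInt_dvd_iff (p := 2) (k + 1) (eigenvalue v u)).1 (by exact_mod_cast h3)
    rcases h4 with h4 | h4
    · exact eigenvalue_ne hval.span hu h4
    · omega
  choose! c hc1 hc2 using h1
  have hcard : (univ.erase (0 : V r)).card = 2 ^ r - 1 := by
    rw [card_erase_of_mem (mem_univ _), card_univ, Fintype.card_fun, ZMod.card, Fintype.card_fin]
  have h2 : ∀ w : V r, w ≠ 0 → ∃ s : ℤ, Odd s ∧ 2 ^ k * s = - (2 ^ r * (mult v w : ℤ)) := by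
    intro w hw
    refine ⟨∑ u ∈ univ.erase (0 : V r), chi (u ⬝ᵥ w) * c u, ?_, ?_⟩
    · refine odd_sum _ _ (fun u hu => (chi_odd _).mul (hc1 u (ne_of_mem_erase hu))) ?_
      rw [hcard]
      refine Nat.Even.sub_odd (Nat.one_le_two_pow) ?_ odd_one
      exact (Nat.even_pow).2 ⟨even_two, by omega⟩
    · rw [← fourier v hw, ← add_sum_erase univ _ (mem_univ (0 : V r)), eigenvalue_zero, mul_zero,
        zero_add, mul_sum]
      refine sum_congr rfl fun u hu => ?_
      rw [hc2 u (ne_of_mem_erase hu)]
      ring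
  have hkr : k = r := by
    rcases lt_trichotomy k r with hlt | heq | hgt
    · exfalso
      obtain ⟨s, hs, hs2⟩ := h2 u₀ hu₀
      obtain ⟨m, hm⟩ : ∃ m, r = k + (m + 1) := ⟨r - k - 1, by omega⟩
      have h3 : s = - (2 ^ (m + 1) * (mult v u₀ : ℤ)) := by
        have : (2 : ℤ) ^ k ≠ 0 := pow_ne_zero _ two_ne_zero
        apply mul_left_cancel₀ this
        rw [hs2, show (2 : ℤ) ^ r = 2 ^ k * 2 ^ (m + 1) by rw [← pow_add, ← hm]]
        ring
      rw [← Int.not_even_iff_odd] at hs
      apply hs
      rw [h3]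
      exact ⟨- (2 ^ m * (mult v u₀ : ℤ)), by ring⟩
    · exact heq
    · exfalso
      have h4 : ∀ w : V r, 2 ∣ mult v w := by
        intro w
        by_cases hw : w = 0
        · rw [hw, mult, filter_false_of_mem, card_empty]
          · exact dvd_zero 2
          · intro i _; exact hval.ne_zero i
        · obtain ⟨s, hs, hs2⟩ := h2 w hw
          obtain ⟨m, hm⟩ : ∃ m, k = r + (m + 1) := ⟨k - r - 1, by omega⟩
          rw [hm] at hs2
          have h3 : (mult v w : ℤ) = - (2 ^ (m + 1) * s) := by
            have : (2 : ℤ) ^ r ≠ 0 := pow_ne_zero _ two_ne_zero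
            apply mul_left_cancel₀ this
            have : (2 : ℤ) ^ r * (mult v w : ℤ) = - (2 ^ (r + (m + 1)) * s) := by
              rw [hs2]; ring
            rw [this]; ring
          have h5 : (2 : ℤ) ∣ (mult v w : ℤ) := ⟨- (2 ^ m * s), by rw [h3]; ring⟩
          exact_mod_cast h5
      have h6 : 2 ∣ univ.gcd (mult v) := Finset.dvd_gcd fun w _ => h4 w
      rw [hval.gcd] at h6
      omega
  intro w hw
  obtain ⟨s, hs, hs2⟩ := h2 w hw
  rw [hkr] at hs2
  have h3 : (mult v w : ℤ) = - s := by
    have : (2 : ℤ) ^ r ≠ 0 := pow_ne_zero _ two_ne_zero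
    apply mul_left_cancel₀ this
    have : (2 : ℤ) ^ r * (mult v w : ℤ) = - (2 ^ r * s) := by
      rw [hs2]; ring
    rw [this]; ring
  have h4 : Odd (mult v w : ℤ) := by rw [h3]; exact hs.neg
  exact_mod_cast h4

/-! ### The counterexample -/

/-- The list with multiplicities `μ_(1,0) = μ_(0,1) = 1` and `μ_(1,1) = 3`. -/
def vex : Fin 5 → V 2 := ![![1, 0], ![0, 1], ![1, 1], ![1, 1], ![1, 1]]

theorem vex_valid : Valid vex where
  pos := by norm_num
  ne_zero := by decide
  span := by
    rw [eq_top_iff]
    intro x _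
    have h : x = x 0 • vex 0 + x 1 • vex 1 := by
      funext i
      fin_cases i <;> simp [vex]
    rw [h]
    exact add_mem (Submodule.smul_mem _ _ (Submodule.subset_span ⟨0, rfl⟩))
      (Submodule.smul_mem _ _ (Submodule.subset_span ⟨1, rfl⟩))
  gcd := by
    refine Nat.dvd_one.1 ((Finset.gcd_dvd (mem_univ (![1, 0] : V 2))).trans ?_)
    rw [show mult vex ![1, 0] = 1 by decide]

theorem vex_allOdd : AllOdd vex := by
  unfold AllOdd; decide

theorem vex_not_allEqual : ¬ AllEqual vex := by
  intro h
  have h1 := h ![1, 0] ![1, 1] (by decide) (by decide)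
  rw [show eigenvalue vex ![1, 0] = ((2 ^ 3 : ℕ) : ℤ) by decide,
    show eigenvalue vex ![1, 1] = ((2 ^ 2 : ℕ) : ℤ) by decide, padicValInt.of_nat,
    padicValInt.of_nat, padicValNat.prime_pow, padicValNat.prime_pow] at h1
  omega

/-- **Main result.** For every list `v` as in the problem: if all multiplicities `μ_u`, `u ≠ 0`, are
odd then `d(M) = 2^r - 2`, and otherwise `d(M)` is odd; moreover equal valuations force all
multiplicities to be odd, so the assertion of Q1 holds for `v` if and only if (all multiplicities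
odd implies all valuations equal). And Q1 fails for some `v`. -/
theorem result :
    (∀ (r n : ℕ) (v : Fin n → V r), Valid v →
      (AllOdd v → d v = 2 ^ r - 2) ∧ (¬ AllOdd v → Odd (d v)) ∧ (AllEqual v → AllOdd v) ∧
      (Q1For v ↔ (AllOdd v → AllEqual v))) ∧
    (∃ (r n : ℕ) (v : Fin n → V r), Valid v ∧ ¬ AllEqual v ∧ Even (d v) ∧ ¬ Q1For v) := by
  refine ⟨fun r n v hval => ⟨d_allOdd hval, odd_d hval, allOdd_of_allEqual hval, ?_⟩, ?_⟩
  · have hr := hval.pos
    have heven : Even (2 ^ r - 2) := by
      obtain ⟨m, rfl⟩ : ∃ m, r = m + 1 := ⟨r - 1, by omega⟩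
      exact ⟨2 ^ m - 1, by rw [pow_succ]; omega⟩
    constructor
    · intro hQ hodd
      by_contra hne
      have h1 := hQ.1 hne
      rw [d_allOdd hval hodd] at h1
      exact (Nat.not_even_iff_odd.2 h1) heven
    · intro hQ
      refine ⟨fun hne => odd_d hval fun hodd => hne (hQ hodd), fun heq => ?_⟩
      exact d_allOdd hval (allOdd_of_allEqual hval heq)
  · have h1 := d_allOdd vex_valid vex_allOdd
    refine ⟨2, 5, vex, vex_valid, vex_not_allEqual, ?_, ?_⟩
    · rw [h1]; decide
    · intro hQ
      have h2 := hQ.1 vex_not_allEqual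
      rw [h1] at h2
      revert h2; decide

end Pool.Agent.Results.MP_8ee885_co.ParityOfTwoRank
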